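import Pool.Agent.H89.QV5

set_option autoImplicit false

namespace Pool.Agent.Results.MP_5bbf46_al.Free

/-- a class of groups -/
abbrev Cls := ∀ (G : Type) [Group G], Prop

/-- `X` is the class of groups defined by a set of quasi-identities
`u₁ = 1 ∧ ⋯ ∧ uₖ = 1 ⇒ u = 1` -/
def IsQuasivariety (X : Cls) : Prop :=
  ∃ T : Set (List (FreeGroup ℕ) × FreeGroup ℕ), ∀ (G : Type) [Group G],
    X G ↔ ∀ q ∈ T, ∀ g : ℕ → G, (∀ u ∈ q.1, FreeGroup.lift g u = 1) → FreeGroup.lift g q.2 = 1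

/-- `X` satisfies a non-trivial identity -/
def HasIdentity (X : Cls) : Prop :=
  ∃ (n : ℕ) (w : FreeGroup (Fin n)), w ≠ 1 ∧
    ∀ (G : Type) [Group G], X G → ∀ g : Fin n → G, FreeGroup.lift g w = 1

/-- the quasivarieties satisfying a non-trivial identity -/
def S : Set Cls := {X | IsQuasivariety X ∧ HasIdentity X}

/-- the product of classes: extensions of a group in `X` by a group in `Y` -/
def mul (X Y : Cls) : Cls := fun G _ => ∃ (N : Subgroup G) (_ : N.Normal), X N ∧ Y (G ⧸ N)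

/-- the class of trivial groups -/
def E : Cls := fun G _ => Subsingleton G

theorem result : E ∈ S ∧ (∀ X ∈ S, ∀ Y ∈ S, mul X Y ∈ S) ∧
    (∀ X ∈ S, ∀ Y ∈ S, ∀ Z ∈ S, mul (mul X Y) Z = mul X (mul Y Z)) ∧
    (∀ X ∈ S, mul X E = X ∧ mul E X = X) ∧
    ∃ B ⊆ S \ {E}, ∀ X ∈ S, ∃! l : List Cls, (∀ Y ∈ l, Y ∈ B) ∧ l.foldr mul E = X := by
  have h : ∀ X, X ∈ S ↔ H89.QV.IsQV X ∧ H89.QV.res X (FreeGroup ℕ) ≠ ⊥ := fun X =>
    and_congr (H89.QV.malcev X) (H89.QV.law_iff X)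
  obtain ⟨B, b1, b2⟩ := H89.QV.free_main
  simp only [h]
  exact ⟨⟨H89.QV.triv_qv, H89.QV.triv_law⟩, fun X a Y b => ⟨a.1.mul b.1, H89.QV.law_mul a.2 b.2⟩,
    fun X a Y b Z c => H89.QV.mul_assoc' a.1 b.1 c.1,
    fun X a => ⟨H89.QV.mul_triv a.1, H89.QV.triv_mul a.1⟩,
    B, fun X hX => ⟨(h X).2 (b1 X hX).1, (b1 X hX).2⟩, b2⟩

end Pool.Agent.Results.MP_5bbf46_al.Free
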